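import Pool.Agent.helper22.FI3.SpecCQ

/-! Row fi3:JIR (MP_baa4d7_al): irreducible characters and a surjective homomorphism. -/

set_option autoImplicit false

namespace Pool.Agent.FI3

open Pool.Agent.helper58.DC Pool.Agent.DI Pool.Agent.GR Pool.Agent.OB Pool.Agent.DR Pool.Agent.FI

theorem JIR_simple {A B V : Type} [Group A] [Group B] [AddCommGroup V] [Module ℂ V] (f : A →* B)
    (hf : Function.Surjective f) (σ : Representation ℂ A V) (ρ : Representation ℂ B V)
    (h : ∀ a, σ a = ρ (f a)) : σ.IsIrreducible ↔ ρ.IsIrreducible := by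
  have e : Subrepresentation σ ≃o Subrepresentation ρ :=
    { toFun := fun W => ⟨W.toSubmodule, fun b v hv => by
        obtain ⟨a, ha⟩ := hf b
        rw [← ha, ← h a]
        exact W.apply_mem_toSubmodule a hv⟩
      invFun := fun W => ⟨W.toSubmodule, fun a v hv => by
        rw [h a]
        exact W.apply_mem_toSubmodule (f a) hv⟩
      left_inv := fun _ => rfl
      right_inv := fun _ => rfl
      map_rel_iff' := Iff.rfl }
  exact OrderIso.isSimpleOrder_iff e

theorem JIR_triv {K V : Type} [Group K] [Finite K] [AddCommGroup V] [Module ℂ V] [FiniteDimensional ℂ V]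
    (σ : Representation ℂ K V) (h : ∀ z, σ.character z = (Module.finrank ℂ V : ℂ)) : ∀ z, σ z = 1 := by
  classical
  have : Fintype K := Fintype.ofFinite K
  have hK : (Nat.card K : ℂ) ≠ 0 := by exact_mod_cast Nat.card_pos.ne'
  have : Invertible (Nat.card K : ℂ) := invertibleOfNonzero hK
  have h1 := Representation.card_inv_mul_sum_char_eq_finrank σ
  rw [Finset.sum_congr rfl (fun z _ => h z), Finset.sum_const, nsmul_eq_mul, Finset.card_univ,
    ← Nat.card_eq_fintype_card, ← mul_assoc, inv_mul_cancel₀ hK, one_mul] at h1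
  have h2 : Module.finrank ℂ σ.invariants = Module.finrank ℂ V := by exact_mod_cast h1.symm
  have h3 : σ.invariants = ⊤ := Submodule.eq_top_of_finrank_eq h2
  intro z
  ext v
  have h4 : v ∈ σ.invariants := by
    rw [h3]
    trivial
  exact (Representation.mem_invariants σ v).1 h4 z

theorem JIR : JIR_stmt := by
  intro A B _ _ _ _ f hf
  refine ⟨?_, ?_⟩
  · rintro χ ⟨V, iV, iM, iF, ρ, hρ, rfl⟩
    refine ⟨V, iV, iM, iF, ρ.comp f, ?_, ?_⟩
    · exact (JIR_simple f hf (ρ.comp f) ρ (fun a => rfl)).2 hρ
    · funext a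
      rfl
  · rintro φ ⟨V, iV, iM, iF, σ, hσ, rfl⟩ hφ
    have hker : ∀ z, f z = 1 → σ z = 1 := by
      intro z hz
      have h1 : ∀ y : f.ker, Representation.character (σ.comp f.ker.subtype : Representation ℂ f.ker V) y =
          (Module.finrank ℂ V : ℂ) := by
        intro y
        have h2 := hφ (y : A) 1 y.2
        rw [mul_one, Representation.char_one] at h2
        exact h2
      have h3 := JIR_triv (σ.comp f.ker.subtype : Representation ℂ f.ker V) h1 ⟨z, hz⟩
      exact h3
    have hcon : ∀ x y, f x = f y → σ x = σ y := by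
      intro x y hxy
      have h1 : σ (x * y⁻¹) = 1 := hker _ (by rw [map_mul, map_inv, hxy, mul_inv_cancel])
      have h2 : x = (x * y⁻¹) * y := by group
      rw [h2, map_mul, h1, one_mul]
    have hg : ∀ b, f (Function.surjInv hf b) = b := Function.surjInv_eq hf
    let ρ : Representation ℂ B V :=
      { toFun := fun b => σ (Function.surjInv hf b)
        map_one' := hker _ (hg 1)
        map_mul' := fun b b' => by
          rw [← map_mul]
          apply hcon
          rw [map_mul, hg, hg, hg] }
    have hρ : ∀ a, σ a = ρ (f a) := fun a => hcon _ _ (hg (f a)).symm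
    refine ⟨ρ.character, ⟨V, iV, iM, iF, ρ, (JIR_simple f hf σ ρ hρ).1 hσ, rfl⟩, ?_⟩
    intro a
    show LinearMap.trace ℂ V (σ a) = LinearMap.trace ℂ V (ρ (f a))
    rw [hρ a]

end Pool.Agent.FI3
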